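import Pool.Agent.Helper75.PZ.GoalsC

/-!
# Project PZ, packet CDM: the disconnected space
-/

namespace Pool.Agent.Helper49.PZ

open Finset Filter Topology Pool.Agent.Helper75.PZ

/-- The points of the two sheets. -/
structure Pt where
  s : ℝ
  i : Bool

/-- The distance. -/
noncomputable def dd (D : ℝ → ℝ) (p q : Pt) : ℝ :=
  if p.i = q.i then |p.s - q.s| else max |p.s - q.s| ((D p.s + D q.s) / 2)

variable {D : ℝ → ℝ}

theorem dd_same {p q : Pt} (h : p.i = q.i) : dd D p q = |p.s - q.s| := if_pos h

theorem dd_diff {p q : Pt} (h : p.i ≠ q.i) : dd D p q = max |p.s - q.s| ((D p.s + D q.s) / 2) :=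
  if_neg h

theorem abs_le_dd (p q : Pt) : |p.s - q.s| ≤ dd D p q := by
  unfold dd
  split_ifs
  · exact le_rfl
  · exact le_max_left _ _

theorem dd_comm (p q : Pt) : dd D p q = dd D q p := by
  unfold dd
  rw [abs_sub_comm p.s q.s, add_comm (D p.s) (D q.s)]
  by_cases h : p.i = q.i
  · rw [if_pos h, if_pos h.symm]
  · rw [if_neg h, if_neg (fun h' => h h'.symm)]

theorem dd_triangle (hD2 : ∀ s t, |D s - D t| ≤ 2 * |s - t|) (p q r : Pt) :
    dd D p r ≤ dd D p q + dd D q r := by
  have h0 : |p.s - r.s| ≤ |p.s - q.s| + |q.s - r.s| := abs_sub_le _ _ _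
  have h1 := abs_le_dd (D := D) p q
  have h2 := abs_le_dd (D := D) q r
  by_cases hpr : p.i = r.i
  · rw [dd_same hpr]
    linarith
  · rw [dd_diff hpr]
    apply max_le (by linarith)
    by_cases hpq : p.i = q.i
    · have hqr : q.i ≠ r.i := fun h => hpr (hpq.trans h)
      have h3 : (D q.s + D r.s) / 2 ≤ dd D q r := by
        rw [dd_diff hqr]
        exact le_max_right _ _
      have h4 := (abs_le.mp (hD2 p.s q.s)).2
      linarith
    · have hqr : q.i = r.i := by
        cases hp : p.i <;> cases hq : q.i <;> cases hr : r.i <;> simp_all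
      have h3 : (D p.s + D q.s) / 2 ≤ dd D p q := by
        rw [dd_diff hpq]
        exact le_max_right _ _
      have h4 := (abs_le.mp (hD2 q.s r.s)).1
      linarith

/-- The metric. -/
@[reducible]
noncomputable def met (hD : ∀ s, 0 < D s) (hD2 : ∀ s t, |D s - D t| ≤ 2 * |s - t|) :
    MetricSpace Pt where
  dist := dd D
  dist_self p := by
    show dd D p p = 0
    rw [dd_same rfl, sub_self, abs_zero]
  dist_comm := dd_comm
  dist_triangle := dd_triangle hD2
  eq_of_dist_eq_zero := by
    intro p q h
    have h' : dd D p q = 0 := h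
    by_cases hi : p.i = q.i
    · rw [dd_same hi, abs_eq_zero, sub_eq_zero] at h'
      cases p; cases q; simp only at hi h'; subst hi h'; rfl
    · rw [dd_diff hi] at h'
      have h1 : (D p.s + D q.s) / 2 ≤ 0 := h' ▸ le_max_right _ _
      have h2 := hD p.s
      have h3 := hD q.s
      linarith

theorem zprop (h : ℝ → ℝ) (hmono : Monotone h) (hle : ∀ r, h r ≤ 1 / 2)
    (hD : ∀ s, 0 < D s) (hDa : Antitone D) (hD2 : ∀ s t, |D s - D t| ≤ 2 * |s - t|)
    (hD3 : ∀ s, ∃ δ0 > 0, ∀ δ, 0 ≤ δ → δ ≤ δ0 → D (s + δ) ≤ D s - 4 * h (D s) * δ)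
    (u v : Pt) (huv : u ≠ v) (hs : u.s ≤ v.s) :
    ∃ z : Pt, z ≠ u ∧ z ≠ v ∧
      (dd D u z + dd D v z - dd D u v) / 2 ≤ (1 / 2 - h (dd D u v)) * min (dd D u z) (dd D v z) := by
  by_cases hi : u.i = v.i
  · have hne : u.s ≠ v.s := by
      intro h1
      apply huv
      cases u; cases v; simp only at hi h1; subst hi h1; rfl
    have hlt : u.s < v.s := lt_of_le_of_ne hs hne
    refine ⟨⟨(u.s + v.s) / 2, u.i⟩, ?_, ?_, ?_⟩
    · intro h1
      have := congrArg Pt.s h1
      simp only at this
      linarith
    · intro h1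
      have := congrArg Pt.s h1
      simp only at this
      linarith
    · have d1 : dd D u ⟨(u.s + v.s) / 2, u.i⟩ = |u.s - (u.s + v.s) / 2| :=
        dd_same (p := u) (q := ⟨(u.s + v.s) / 2, u.i⟩) rfl
      have d2 : dd D v ⟨(u.s + v.s) / 2, u.i⟩ = |v.s - (u.s + v.s) / 2| :=
        dd_same (p := v) (q := ⟨(u.s + v.s) / 2, u.i⟩) hi.symm
      rw [d1, d2, dd_same hi]
      have e1 : |u.s - (u.s + v.s) / 2| = (v.s - u.s) / 2 := by
        rw [abs_of_nonpos (by linarith)]; ring
      have e2 : |v.s - (u.s + v.s) / 2| = (v.s - u.s) / 2 := by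
        rw [abs_of_nonneg (by linarith)]; ring
      have e3 : |u.s - v.s| = v.s - u.s := by
        rw [abs_of_nonpos (by linarith)]; ring
      show (|u.s - (u.s + v.s) / 2| + |v.s - (u.s + v.s) / 2| - |u.s - v.s|) / 2 ≤
        (1 / 2 - h |u.s - v.s|) * min |u.s - (u.s + v.s) / 2| |v.s - (u.s + v.s) / 2|
      rw [e1, e2, e3, min_self]
      have h1 := hle (v.s - u.s)
      have h2 : 0 ≤ (1 / 2 - h (v.s - u.s)) * ((v.s - u.s) / 2) :=
        mul_nonneg (by linarith) (by linarith)
      linarith
  · set E := dd D u v with hE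
    have hEd : E = max |u.s - v.s| ((D u.s + D v.s) / 2) := dd_diff hi
    have hE1 : |u.s - v.s| ≤ E := hEd ▸ le_max_left _ _
    have hE2 : (D u.s + D v.s) / 2 ≤ E := hEd ▸ le_max_right _ _
    have hEpos : 0 < E := by
      have h1 := hD u.s
      have h2 := hD v.s
      linarith
    have hE3 : v.s - u.s ≤ E := by
      have := neg_abs_le (u.s - v.s)
      linarith
    obtain ⟨δ0, hδ0, hδ0'⟩ := hD3 u.s
    obtain ⟨δ, hδpos, hδ1, hδ2, hδ3, hδ4⟩ : ∃ δ > 0, δ ≤ δ0 ∧ δ ≤ E / 4 ∧
        (u.s < v.s → δ ≤ v.s - u.s) ∧ (D u.s < E → δ ≤ E - D u.s) := by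
      refine ⟨min (min δ0 (E / 4)) (min (if u.s < v.s then v.s - u.s else 1)
        (if D u.s < E then E - D u.s else 1)), ?_, ?_, ?_, ?_, ?_⟩
      · apply lt_min
        · exact lt_min hδ0 (by linarith)
        · apply lt_min
          · split_ifs with h1
            · linarith
            · norm_num
          · split_ifs with h1
            · linarith
            · norm_num
      · exact (min_le_left _ _).trans (min_le_left _ _)
      · exact (min_le_left _ _).trans (min_le_right _ _)
      · intro h1
        refine (min_le_right _ _).trans ((min_le_left _ _).trans ?_)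
        rw [if_pos h1]
      · intro h1
        refine (min_le_right _ _).trans ((min_le_right _ _).trans ?_)
        rw [if_pos h1]
    set z : Pt := ⟨u.s + δ, u.i⟩ with hz
    have hzu : dd D u z = δ := by
      rw [dd_same (p := u) (q := z) rfl]
      show |u.s - (u.s + δ)| = δ
      rw [abs_of_nonpos (by linarith)]; ring
    have hvz : dd D v z = max |v.s - (u.s + δ)| ((D v.s + D (u.s + δ)) / 2) :=
      dd_diff fun h1 => hi h1.symm
    have hE4 := hle E
    have h2h : 2 * h E * δ ≤ δ := by nlinarith
    have hclaim : dd D v z ≤ E - 2 * h E * δ := by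
      rw [hvz]
      apply max_le
      · rcases lt_or_eq_of_le hs with h1 | h1
        · have h2 := hδ3 h1
          rw [abs_of_nonneg (by linarith)]
          linarith
        · rw [h1, abs_of_nonpos (by linarith)]
          linarith
      · have h1 := hδ0' δ hδpos.le hδ1
        by_cases h2 : D u.s < E
        · have h3 := hδ4 h2
          have h4 : D (u.s + δ) ≤ D u.s := hDa (by linarith)
          have h5 : D v.s ≤ D u.s := hDa hs
          linarith
        · have h3 : h E ≤ h (D u.s) := hmono (not_lt.mp h2)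
          have h4 : h E * δ ≤ h (D u.s) * δ := mul_le_mul_of_nonneg_right h3 hδpos.le
          linarith
    have htri : E ≤ dd D u z + dd D v z := by
      rw [dd_comm v z]
      exact dd_triangle hD2 u z v
    refine ⟨z, ?_, ?_, ?_⟩
    · intro h1
      have h2 := congrArg Pt.s h1
      have h3 : u.s + δ = u.s := h2
      linarith
    · intro h1
      have h2 := congrArg Pt.i h1
      exact hi h2
    · rw [hzu] at htri ⊢
      have hmin : min δ (dd D v z) = δ := min_eq_left (by linarith)
      rw [hmin]
      linarith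

theorem cdm (hDFN : P_DFN) : P_CDM := by
  intro h hmono hpos hle hns
  obtain ⟨D, hD, hDa, hD2, hD3⟩ := hDFN h hmono hpos hle hns
  let inst : MetricSpace Pt := met hD hD2
  have hdist : ∀ p q : Pt, dist p q = dd D p q := fun _ _ => rfl
  -- points of different sheets are far
  have hfar : ∀ p q : Pt, p.i ≠ q.i → D p.s / 2 < dist p q := by
    intro p q hne
    have h1 : (D p.s + D q.s) / 2 ≤ dist p q := by
      rw [hdist, dd_diff hne]
      exact le_max_right _ _
    have h2 := hD q.s
    linarith
  have hcomplete : CompleteSpace Pt := by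
    apply Metric.complete_of_cauchySeq_tendsto
    intro u hu
    have hus : CauchySeq fun n => (u n).s := by
      rw [Metric.cauchySeq_iff] at hu ⊢
      intro ε hε
      obtain ⟨N, hN⟩ := hu ε hε
      refine ⟨N, fun m hm n hn => ?_⟩
      rw [Real.dist_eq]
      exact lt_of_le_of_lt (abs_le_dd (D := D) (u m) (u n)) (hN m hm n hn)
    obtain ⟨s, hs⟩ := cauchySeq_tendsto_of_complete hus
    rw [Metric.tendsto_atTop] at hs
    have hDs := hD s
    obtain ⟨N1, hN1⟩ := hs (D s / 4) (by linarith)
    rw [Metric.cauchySeq_iff] at hu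
    obtain ⟨N2, hN2⟩ := hu (D s / 4) (by linarith)
    set N := max N1 N2 with hNdef
    have hsheet : ∀ n ≥ N, (u n).i = (u N).i := by
      intro n hn
      by_contra hne
      have h1 := hfar (u n) (u N) hne
      have h2 := hN2 n (le_trans (le_max_right _ _) hn) N (le_max_right _ _)
      have h3 := hN1 n (le_trans (le_max_left _ _) hn)
      rw [Real.dist_eq] at h3
      have h4 := (abs_le.mp (hD2 (u n).s s)).1
      linarith
    refine ⟨⟨s, (u N).i⟩, ?_⟩
    rw [Metric.tendsto_atTop]
    intro ε hε
    obtain ⟨N3, hN3⟩ := hs ε hε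
    refine ⟨max N N3, fun n hn => ?_⟩
    have d1 : dd D (u n) ⟨s, (u N).i⟩ = |(u n).s - s| :=
      dd_same (p := u n) (q := ⟨s, (u N).i⟩) (hsheet n (le_trans (le_max_left _ _) hn))
    rw [hdist, d1]
    have h1 := hN3 n (le_trans (le_max_right _ _) hn)
    rw [Real.dist_eq] at h1
    exact h1
  refine ⟨Pt, inst, hcomplete, ?_, ?_⟩
  · intro u v huv
    have key : ∀ u v : Pt, u ≠ v → u.s ≤ v.s → ∃ z : Pt, z ≠ u ∧ z ≠ v ∧
        gp u v z ≤ (1 / 2 - h (dist u v)) * min (dist u z) (dist v z) :=
      fun u v huv hs => zprop h hmono hle hD hDa hD2 hD3 u v huv hs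
    rcases le_total u.s v.s with hs | hs
    · exact key u v huv hs
    · obtain ⟨z, hz1, hz2, hz3⟩ := key v u huv.symm hs
      refine ⟨z, hz2, hz1, ?_⟩
      have e : gp u v z = gp v u z := by
        unfold gp
        rw [dist_comm u v]; ring
      rw [e, dist_comm u v, min_comm]
      exact hz3
  · intro hpre
    have hopen : ∀ b : Bool, IsOpen {p : Pt | p.i = b} := by
      intro b
      rw [Metric.isOpen_iff]
      intro p hp
      refine ⟨D p.s / 2, by have := hD p.s; linarith, fun q hq => ?_⟩
      rw [Metric.mem_ball, dist_comm] at hq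
      by_contra hne
      have hne' : p.i ≠ q.i := by
        intro h1
        apply hne
        show q.i = b
        rw [← h1]
        exact hp
      have := hfar p q hne'
      linarith
    have hclopen : IsClopen {p : Pt | p.i = false} := by
      refine ⟨?_, hopen false⟩
      rw [← isOpen_compl_iff]
      have : {p : Pt | p.i = false}ᶜ = {p : Pt | p.i = true} := by
        ext p
        simp
      rw [this]
      exact hopen true
    rcases isClopen_iff.mp hclopen with h1 | h1
    · have : (⟨0, false⟩ : Pt) ∈ {p : Pt | p.i = false} := rfl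
      rw [h1] at this
      exact this
    · have h2 : (⟨0, true⟩ : Pt) ∈ {p : Pt | p.i = false} := by
        rw [h1]
        trivial
      exact absurd h2 (by simp)

end Pool.Agent.Helper49.PZ
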